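import Pool.Agent.H49.CP.Asym
import Pool.Agent.H49.CP.Conv2
import Pool.Agent.H49.CP.OneEnd

set_option autoImplicit false

namespace Pool.Agent.Results.MP_77deba_pr.NotHolder

open MeasureTheory Filter Topology Pool.Agent.H45.Chain Pool.Agent.H49.CP
open scoped ENNReal

/-- `c` and `r` are the centres and radii of a circle packing of the component of `ρ` in `G`, with
carrier the open unit disc: the closed discs lie in the unit disc and have disjoint interiors,
two of them are tangent exactly when the vertices are adjacent, only finitely many meet a given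
smaller concentric disc, and every point of the unit disc lies in a disc or in a triangle spanned
by the centres of three pairwise adjacent vertices which contains no further centre. Thus the
straight line embedding is proper in the unit disc and all its faces are triangles. -/
structure IsPacking {V : Type} (G : SimpleGraph V) (ρ : V) (c : V → ℂ) (r : V → ℝ) : Prop where
  rad_pos : ∀ v, G.Reachable ρ v → 0 < r v
  inside : ∀ v, G.Reachable ρ v → Metric.closedBall (c v) (r v) ⊆ Metric.ball 0 1
  disjoint : ∀ v w, G.Reachable ρ v → G.Reachable ρ w → v ≠ w →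
    Disjoint (Metric.ball (c v) (r v)) (Metric.ball (c w) (r w))
  tangent : ∀ v w, G.Reachable ρ v → G.Reachable ρ w → v ≠ w →
    (G.Adj v w ↔ dist (c v) (c w) = r v + r w)
  locfin : ∀ R < 1, {v | G.Reachable ρ v ∧
    (Metric.closedBall (c v) (r v) ∩ Metric.closedBall 0 R).Nonempty}.Finite
  carrier : ∀ z ∈ Metric.ball (0 : ℂ) 1,
    (∃ v, G.Reachable ρ v ∧ z ∈ Metric.closedBall (c v) (r v)) ∨
    ∃ u v w, G.Reachable ρ u ∧ G.Adj u v ∧ G.Adj v w ∧ G.Adj u w ∧
      z ∈ convexHull ℝ {c u, c v, c w} ∧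
      ∀ y, G.Reachable ρ y → y ≠ u → y ≠ v → y ≠ w → c y ∉ convexHull ℝ {c u, c v, c w}

/-- Probability that simple random walk on `G` started at `v`, seen through the positions `c`,
converges to a point `exp (t * I)` of the unit circle with `t` between `a` and `b`. -/
noncomputable def exitProb {V : Type} [MeasurableSpace V] [Countable V]
    [MeasurableSingletonClass V] (G : SimpleGraph V) (c : V → ℂ) (v : V) (a b : ℝ) : ℝ≥0∞ :=
  pathLaw (srw G) v {x | ∃ t ∈ Set.Icc a b,
    Tendsto (fun n => c (x n)) atTop (𝓝 (Complex.exp (t * Complex.I)))}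

/-- The exit measure of the walk started at `v` is Hoelder continuous: some positive constants
bound the mass of every arc by `C` times the length of the arc to the power `κ`. -/
def HolderExit {V : Type} [MeasurableSpace V] [Countable V] [MeasurableSingletonClass V]
    (G : SimpleGraph V) (c : V → ℂ) (v : V) : Prop :=
  ∃ C κ : ℝ, 0 < C ∧ 0 < κ ∧ ∀ a b : ℝ, a < b → b ≤ a + 2 * Real.pi →
    exitProb G c v a b ≤ ENNReal.ofReal (C * (b - a) ^ κ)

/-- The standing assumptions of the problem for the random rooted graph given by the component of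
`ρ` in `G`, together with a circle packing `(c, r)` of it in the unit disc. -/
structure Standing {Ω V : Type} [MeasurableSpace Ω] [MeasurableSpace V] [Countable V]
    [MeasurableSingletonClass V] (μ : Measure Ω) (G : Ω → SimpleGraph V) (ρ : Ω → V)
    (c : Ω → V → ℂ) (r : Ω → V → ℝ) : Prop where
  prob : IsProbabilityMeasure μ
  meas_graph : ∀ v w, MeasurableSet {ω | (G ω).Adj v w}
  meas_root : Measurable ρ
  unimodular : Unimodular μ G ρ
  locally_finite : ∀ᵐ ω ∂μ, ∀ v, ((G ω).neighborSet v).Finite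
  one_ended : ∀ᵐ ω ∂μ, OneEnded (G ω) {v | (G ω).Reachable (ρ ω) v}
  packing : ∀ᵐ ω ∂μ, IsPacking (G ω) (ρ ω) (c ω) (r ω)
  degree : ∫⁻ ω, (((G ω).neighborSet (ρ ω)).ncard : ℝ≥0∞) ^ 2 ∂μ < ⊤
  converges : ∀ᵐ ω ∂μ, ∀ᵐ x ∂pathLaw (srw (G ω)) (ρ ω), ∃ ξ : ℂ, ‖ξ‖ = 1 ∧
    Tendsto (fun n => c ω (x n)) atTop (𝓝 ξ)

lemma packing_Gr (D : L → ℕ) {ρ : V} (hρ : Act D ρ) :
    IsPacking (Gr D) ρ (pos D) (fun v => rad (Xv v)) := by
  have hr : ∀ v, (Gr D).Reachable ρ v ↔ Act D v := fun v => reach_iff hρ v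
  refine ⟨?_, ?_, ?_, ?_, ?_, ?_⟩
  · intro v hv
    exact rad_pos ((hr v).1 hv)
  · intro v hv z hz
    rw [hr] at hv
    have h1 := in_disc hv.unit hv.C hv.z
    rw [pos_act hv, Metric.mem_closedBall] at hz
    rw [mem_ball_zero_iff]
    calc ‖z‖ = ‖cen (Xv v) + (z - cen (Xv v))‖ := by congr 1; ring
      _ ≤ ‖cen (Xv v)‖ + ‖z - cen (Xv v)‖ := norm_add_le _ _
      _ < 1 := by rw [← dist_eq_norm]; linarith
  · intro v w hv hw hne
    rw [hr] at hv hw
    rw [pos_act hv, pos_act hw]
    exact Metric.ball_disjoint_ball (disjoint_of _ _ hv.unit hw.unit hv.cv hw.cv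
      (hv.pair hw hne))
  · intro v w hv hw hne
    rw [hr] at hv hw
    rw [pos_act hv, pos_act hw, tangent_iff _ _ hv.unit hw.unit hv.cv hw.cv]
    exact ⟨fun h => h.2.2.2, fun h => ⟨hne, hv, hw, h⟩⟩
  · intro R hR
    have h1 := locfin (D := D) (ρ := max R 0) (le_max_right _ _) (max_lt hR one_pos)
    refine h1.subset ?_
    rintro v ⟨hv, z, hz1, hz2⟩
    rw [hr] at hv
    rw [pos_act hv, Metric.mem_closedBall] at hz1
    rw [mem_closedBall_zero_iff] at hz2
    exact ⟨hv, z, hz2.trans (le_max_left _ _), hz1⟩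
  · intro z hz
    rw [mem_ball_zero_iff] at hz
    obtain ⟨x, hx, hxz, rfl⟩ := exists_pt hz
    have hN := pt_null hx
    have bN : 0 < cv (pt x) := by simp only [cv, pt]; linarith
    rcases cover (D := D) hx hxz with ⟨v, hv, h⟩ | ⟨u, v, w, δ, hG, h1, h2, h3, h4⟩
    · left
      refine ⟨v, (hr v).2 hv, ?_⟩
      rw [pos_act hv, Metric.mem_closedBall, mem_disc_iff hN bN hv.unit hv.cv]
      exact h
    · right
      refine ⟨u, v, w, (hr u).2 hG.a1, ⟨hG.n12, hG.a1, hG.a2, hG.tri.h12⟩,
        ⟨hG.n23, hG.a2, hG.a3, hG.tri.h23⟩, ⟨hG.n13, hG.a1, hG.a3, hG.tri.h13⟩, ?_, ?_⟩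
      · rw [pos_act hG.a1, pos_act hG.a2, pos_act hG.a3]
        exact hG.tri.mem_hull hN bN hG.a1.cv hG.a2.cv hG.a3.cv hG.cvd h1 h2 h3 h4
      · intro y hy n1 n2 n3
        rw [hr] at hy
        rw [pos_act hG.a1, pos_act hG.a2, pos_act hG.a3, pos_act hy]
        exact hG.tri.not_mem_hull hy.unit hy.cv hG.a1.cv hG.a2.cv hG.a3.cv hG.cvd
          (hy.pair hG.a1 n1) (hy.pair hG.a2 n2) (hy.pair hG.a3 n3) (hG.out y hy n1 n2 n3)

/-- There is a unimodular random rooted simple one-ended triangulation, circle packed in the unit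
disc, with a finite second moment of the degree of the root, such that with positive probability
the exit measure of simple random walk is not Hoelder continuous. -/
theorem result : ∃ (Ω V : Type) (_ : MeasurableSpace Ω) (_ : MeasurableSpace V) (_ : Countable V)
    (_ : MeasurableSingletonClass V) (μ : Measure Ω) (G : Ω → SimpleGraph V) (ρ : Ω → V)
    (c : Ω → V → ℂ) (r : Ω → V → ℝ), Standing μ G ρ c r ∧
    ∃ A : Set Ω, MeasurableSet A ∧ 0 < μ A ∧ ∀ ω ∈ A, ¬ HolderExit (G ω) (c ω) (ρ ω) := by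
  refine ⟨Om × V, V, inferInstance, inferInstance, inferInstance, inferInstance, MM,
    fun z => Gr (DD z.1), fun z => z.2, fun z => pos (DD z.1), fun _ v => rad (Xv v), ?_, ?_⟩
  · refine ⟨inferInstance, ?_, measurable_snd, unimod, ?_, ?_, ?_, deg_moment, ?_⟩
    · intro v w
      exact measurable_fst (meas_adj v w)
    · exact Eventually.of_forall fun z v => locfin_graph v
    · refine ae_MM fun τ => Eventually.of_forall fun ω hτ => ?_
      have e : {v | (Gr (DD ω)).Reachable τ v} = {v | Act (DD ω) v} := by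
        ext v; exact reach_iff hτ v
      simp only
      rw [e]
      exact one_ended
    · exact ae_MM fun τ => Eventually.of_forall fun ω hτ => packing_Gr (DD ω) hτ
    · refine ae_MM fun τ => ?_
      filter_upwards [Ec_ae] with ω hω hτ
      exact conv_all hω hτ
  · obtain ⟨A, hA, hPA, hh⟩ := not_holder
    refine ⟨A ×ˢ {bv p0}, hA.prod (measurableSet_singleton _), pos_iff_ne_zero.2 (MM_pos hA hPA),
      ?_⟩
    rintro ⟨ω, τ⟩ ⟨h1, h2⟩ ⟨C, κ, hC, hκ, hHol⟩
    simp only [Set.mem_singleton_iff] at h2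
    subst h2
    obtain ⟨a, b, hab, hab2, hlt⟩ := hh ω h1 C κ hC hκ
    have h3 := hHol a b hab hab2
    refine absurd (lt_of_lt_of_le hlt ?_) (lt_irrefl _)
    refine le_trans (le_of_eq ?_) h3
    unfold exitProb
    congr 1
    ext x
    simp only [LimS, arc, Set.mem_setOf_eq, Set.mem_image, exists_exists_and_eq_and]

end Pool.Agent.Results.MP_77deba_pr.NotHolder
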